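import Mathlib

open Finset

namespace Pool.Agent.Results.MP_2a1065_lc.ExponentialPath

/-- An instance of the budgeted sharing game with agents `U` and sites `H`. -/
structure Game (U H : Type) where
  /-- `E i j`: agent `j` is interested in site `i` -/
  E : H → U → Prop
  /-- query rates -/
  q : H → ℝ
  /-- costs -/
  C : H → ℝ
  /-- budgets -/
  B : U → ℝ
  q_pos : ∀ i, 0 < q i
  C_pos : ∀ i, 0 < C i
  B_pos : ∀ j, 0 < B j

section general

variable {U H : Type} [Fintype U] [Fintype H] [DecidableEq U] [DecidableEq H]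

/-- feasible strategies of agent `j` -/
def Game.Feasible (G : Game U H) (j : U) (s : Finset H) : Prop :=
  (∀ i ∈ s, G.E i j) ∧ ∑ i ∈ s, G.C i ≤ G.B j

/-- number `n_i` of agents serving site `i` -/
def load (S : U → Finset H) (i : H) : ℕ := (univ.filter (fun j => i ∈ S j)).card

/-- the payoff `α_j(S)` -/
noncomputable def Game.payoff (G : Game U H) (S : U → Finset H) (j : U) : ℝ :=
  ∑ i ∈ S j, G.q i / load S i

/-- best-response move from `S` to `S'` that strictly increases the payoff of the mover -/
def Game.Move (G : Game U H) (S S' : U → Finset H) : Prop :=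
  ∃ (j : U) (s : Finset H), G.Feasible j s ∧ S' = Function.update S j s ∧
    (∀ r, G.Feasible j r → G.payoff (Function.update S j r) j ≤ G.payoff S' j) ∧
    G.payoff S j < G.payoff S' j

/-- a best-response path with `L` moves (through feasible states) -/
def Game.HasPath (G : Game U H) (L : ℕ) : Prop :=
  ∃ S : ℕ → U → Finset H, (∀ t, t ≤ L → ∀ j, G.Feasible j (S t j)) ∧
    ∀ t, t < L → G.Move (S t) (S (t + 1))

end general

section network

variable {k : ℕ}

/-- agents: nodes of the network -/
abbrev Nd (k : ℕ) : Type := Fin (3 * k + 1)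

/-- sites: one own site for each node, and one for each pair (head node, offset) -/
abbrev St (k : ℕ) : Type := Nd k ⊕ (Nd k × Fin 3)

/-- the pair (head `w`, tail `w - (d+1)`) is an edge -/
def ex (w d : ℕ) : Prop := 1 ≤ w ∧ d ≤ (w - 1) % 3

instance (w d : ℕ) : Decidable (ex w d) := by unfold ex; infer_instance

/-- scale of a node -/
noncomputable def sc (w : ℕ) : ℝ := (1 / 1000) ^ w

/-- relative edge weights -/
noncomputable def cw (w d : ℕ) : ℝ := if (w - 1) % 3 = 2 then (if d = 0 then 3 else 2) else 1

/-- rate of the own site -/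
noncomputable def thr (v : ℕ) : ℝ :=
  if v = 0 then sc 1 / 4 else if (v - 1) % 3 = 0 then 3 / 4 * sc v
    else if (v - 1) % 3 = 1 then 5 / 4 * sc v else 24 / 5 * sc v

theorem sc_pos (w : ℕ) : 0 < sc w := by unfold sc; positivity

theorem sc_succ (w : ℕ) : sc (w + 1) = sc w / 1000 := by
  unfold sc; rw [pow_succ]; ring

theorem cw_pos (w d : ℕ) : 0 < cw w d := by
  unfold cw; split_ifs <;> norm_num

theorem cw_le (w d : ℕ) : cw w d ≤ 3 := by
  unfold cw; split_ifs <;> norm_num

theorem thr_pos (v : ℕ) : 0 < thr v := by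
  have := sc_pos v
  have := sc_pos 1
  unfold thr; split_ifs <;> positivity

/-- incidence of the node `j` with the edge `(w,d)` -/
def inc (j w d : ℕ) : Prop := ex w d ∧ (j = w ∨ j + d + 1 = w)

instance (j w d : ℕ) : Decidable (inc j w d) := by unfold inc; infer_instance

/-- the game -/
noncomputable def net (k : ℕ) : Game (Nd k) (St k) where
  E i j := match i with
    | Sum.inl v => v = j
    | Sum.inr (w, d) => inc j.1 w.1 d.1
  q i := match i with
    | Sum.inl v => thr v.1
    | Sum.inr (w, d) => cw w.1 d.1 * sc w.1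
  C i := match i with
    | Sum.inl _ => 6
    | Sum.inr _ => 1
  B _ := 6
  q_pos i := by
    rcases i with v | ⟨w, d⟩
    · exact thr_pos _
    · exact mul_pos (cw_pos _ _) (sc_pos _)
  C_pos i := by
    rcases i with v | ⟨w, d⟩ <;> norm_num
  B_pos _ := by norm_num

/-- incoming edges of a node -/
def inA (j : Nd k) : Finset (St k) :=
  (univ.filter (fun d : Fin 3 => ex j.1 d.1)).image (fun d => Sum.inr (j, d))

open Classical in
/-- outgoing edges of a node -/
noncomputable def inB (j : Nd k) : Finset (St k) :=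
  univ.filter (fun i => match i with
    | Sum.inl _ => False
    | Sum.inr (w, d) => ex w.1 d.1 ∧ j.1 + d.1 + 1 = w.1)

/-- all edges at a node -/
noncomputable def inS (j : Nd k) : Finset (St k) := inA j ∪ inB j

theorem mem_inA (j : Nd k) (w : Nd k) (d : Fin 3) :
    (Sum.inr (w, d) : St k) ∈ inA j ↔ ex w.1 d.1 ∧ j = w := by
  simp only [inA, mem_image, mem_filter, mem_univ, true_and, Sum.inr.injEq, Prod.mk.injEq]
  constructor
  · rintro ⟨d', h1, rfl, rfl⟩
    exact ⟨h1, rfl⟩
  · rintro ⟨h1, rfl⟩
    exact ⟨d, h1, rfl, rfl⟩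

theorem mem_inB (j : Nd k) (w : Nd k) (d : Fin 3) :
    (Sum.inr (w, d) : St k) ∈ inB j ↔ ex w.1 d.1 ∧ j.1 + d.1 + 1 = w.1 := by
  simp [inB]

theorem mem_inS (j : Nd k) (w : Nd k) (d : Fin 3) :
    (Sum.inr (w, d) : St k) ∈ inS j ↔ inc j.1 w.1 d.1 := by
  rw [inS, mem_union, mem_inA, mem_inB]
  unfold inc
  rw [Fin.ext_iff]
  tauto

theorem inl_notMem_inS (j v : Nd k) : (Sum.inl v : St k) ∉ inS j := by
  simp [inS, inA, inB]

theorem disj (j : Nd k) : Disjoint (inA j) (inB j) := by
  rw [Finset.disjoint_left]
  rintro (v | ⟨w, d⟩) h1 h2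
  · exact absurd (mem_union_left _ h1) (inl_notMem_inS j v)
  · rw [mem_inA] at h1
    rw [mem_inB] at h2
    have h3 := congrArg Fin.val h1.2
    omega

theorem card_inA (j : Nd k) : (inA j).card ≤ 3 := by
  refine card_image_le.trans ?_
  exact (card_filter_le _ _).trans (by simp)

theorem card_inB (j : Nd k) : (inB j).card ≤ 3 := by
  have h : (inB j).card ≤ (univ : Finset (Fin 3)).card := by
    apply Finset.card_le_card_of_injOn (fun i => match i with
      | Sum.inl _ => (0 : Fin 3)
      | Sum.inr (_, d) => d) (fun _ _ => mem_univ _)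
    rintro (v | ⟨w, d⟩) h1 (v' | ⟨w', d'⟩) h2 h3
    · exact absurd (mem_union_right _ h1) (inl_notMem_inS j v)
    · exact absurd (mem_union_right _ h1) (inl_notMem_inS j v)
    · exact absurd (mem_union_right _ h2) (inl_notMem_inS j v')
    · have h3' : d = d' := h3
      subst h3'
      have h1' := (mem_inB j w d).mp h1
      have h2' := (mem_inB j w' d).mp h2
      have : w = w' := Fin.ext (by omega)
      rw [this]
  simpa using h

theorem card_inS (j : Nd k) : (inS j).card ≤ 6 :=
  (card_union_le _ _).trans (by have := card_inA j; have := card_inB j; omega)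

theorem feas_inS (j : Nd k) : (net k).Feasible j (inS j) := by
  constructor
  · rintro (v | ⟨w, d⟩) hi
    · exact absurd hi (inl_notMem_inS j v)
    · exact (mem_inS j w d).mp hi
  · have h : ∑ i ∈ inS j, (net k).C i = ∑ _i ∈ inS j, (1 : ℝ) := by
      apply Finset.sum_congr rfl
      rintro (v | ⟨w, d⟩) hi
      · exact absurd hi (inl_notMem_inS j v)
      · rfl
    rw [h, Finset.sum_const, nsmul_eq_mul, mul_one]
    have := card_inS j
    have h2 : ((inS j).card : ℝ) ≤ 6 := by exact_mod_cast this
    exact h2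

theorem feas_own (j : Nd k) : (net k).Feasible j {Sum.inl j} := by
  constructor
  · intro i hi
    rw [mem_singleton] at hi
    subst hi
    rfl
  · rw [sum_singleton]
    exact le_refl _

/-- a feasible strategy is the own site or a set of edges -/
theorem feas_cases (j : Nd k) (r : Finset (St k)) (hr : (net k).Feasible j r) :
    r = {Sum.inl j} ∨ r ⊆ inS j := by
  by_cases h : (Sum.inl j : St k) ∈ r
  · left
    obtain ⟨h1, h2⟩ := hr
    rw [← Finset.add_sum_erase r _ h] at h2
    have h3 : (net k).C (Sum.inl j) = 6 := rfl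
    have h4 : (net k).B j = 6 := rfl
    rw [h3, h4] at h2
    have h5 : r.erase (Sum.inl j) = ∅ := by
      by_contra hne
      have h6 : 0 < ∑ x ∈ r.erase (Sum.inl j), (net k).C x :=
        Finset.sum_pos (fun i _ => (net k).C_pos i) (Finset.nonempty_iff_ne_empty.mpr hne)
      linarith
    rw [Finset.erase_eq_empty_iff] at h5
    rcases h5 with h5 | h5
    · rw [h5] at h
      exact absurd h (notMem_empty _)
    · exact h5
  · right
    rintro (v | ⟨w, d⟩) hi
    · have h1 : v = j := hr.1 _ hi
      rw [h1] at hi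
      exact absurd hi h
    · exact (mem_inS j w d).mpr (hr.1 _ hi)

/-- the state of the game coded by a 0/1 vector -/
noncomputable def Sx (x : ℕ → Bool) (j : Nd k) : Finset (St k) := if x j.1 then inS j else {Sum.inl j}

theorem feas_Sx (x : ℕ → Bool) (j : Nd k) : (net k).Feasible j (Sx x j) := by
  unfold Sx
  split_ifs
  · exact feas_inS j
  · exact feas_own j

/-- the other end of an edge -/
def oth (j w d : ℕ) : ℕ := if j = w then w - (d + 1) else w

/-- value of a site for agent `j` when the others play `x` -/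
noncomputable def val (x : ℕ → Bool) (j : ℕ) (i : St k) : ℝ :=
  match i with
  | Sum.inl v => thr v.1
  | Sum.inr (w, d) => cw w.1 d.1 * sc w.1 / (1 + (if x (oth j w.1 d.1) then 1 else 0))

theorem val_pos (x : ℕ → Bool) (j : ℕ) (i : St k) : 0 < val x j i := by
  rcases i with v | ⟨w, d⟩
  · exact thr_pos _
  · unfold val
    have h1 := cw_pos w.1 d.1
    have h2 := sc_pos w.1
    simp only
    split_ifs <;> positivity

theorem load_own (x : ℕ → Bool) (j : Nd k) (r : Finset (St k)) (hr : Sum.inl j ∈ r) :
    load (Function.update (Sx x) j r) (Sum.inl j) = 1 := by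
  unfold load
  have h : (univ.filter (fun j' => (Sum.inl j : St k) ∈ Function.update (Sx x) j r j')) = {j} := by
    ext j'
    simp only [mem_filter, mem_univ, true_and, mem_singleton]
    constructor
    · intro h
      by_contra hne
      rw [Function.update_of_ne hne] at h
      unfold Sx at h
      split_ifs at h
      · exact inl_notMem_inS j' j h
      · rw [mem_singleton] at h
        exact hne (Sum.inl.inj h).symm
    · rintro rfl
      rw [Function.update_self]
      exact hr
  rw [h, card_singleton]

theorem load_edge (x : ℕ → Bool) (j : Nd k) (r : Finset (St k)) (w : Nd k) (d : Fin 3)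
    (hi : (Sum.inr (w, d) : St k) ∈ r) (hin : inc j.1 w.1 d.1) :
    load (Function.update (Sx x) j r) (Sum.inr (w, d)) =
      1 + (if x (oth j.1 w.1 d.1) then 1 else 0) := by
  classical
  have hw := w.2
  obtain ⟨hex, hor⟩ := hin
  have hex' : 1 ≤ w.1 ∧ d.1 ≤ (w.1 - 1) % 3 := hex
  have hwd : d.1 + 1 ≤ w.1 := by omega
  obtain ⟨o, ho⟩ : ∃ o : Nd k, o.1 = oth j.1 w.1 d.1 := by
    unfold oth
    split_ifs
    · exact ⟨⟨w.1 - (d.1 + 1), by omega⟩, rfl⟩
    · exact ⟨w, rfl⟩
  have hjo : j ≠ o := by
    intro h
    rw [← h] at ho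
    unfold oth at ho
    split_ifs at ho <;> omega
  have hoinc : inc o.1 w.1 d.1 := by
    refine ⟨hex, ?_⟩
    rw [ho]
    unfold oth
    split_ifs
    · right; omega
    · left; rfl
  have hother : ∀ j' : Nd k, j' ≠ j → j' ≠ o → ¬ inc j'.1 w.1 d.1 := by
    intro j' h1 h2 h3
    have h1' : j'.1 ≠ j.1 := fun h => h1 (Fin.ext h)
    have h2' : j'.1 ≠ o.1 := fun h => h2 (Fin.ext h)
    rw [ho] at h2'
    unfold oth at h2'
    obtain ⟨_, h4⟩ := h3
    split_ifs at h2' <;> omega
  unfold load
  rw [← ho]
  have h : (univ.filter (fun j' => (Sum.inr (w, d) : St k) ∈ Function.update (Sx x) j r j')) =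
      if x o.1 then {j, o} else {j} := by
    ext j'
    simp only [mem_filter, mem_univ, true_and]
    by_cases h1 : j' = j
    · subst h1
      rw [Function.update_self]
      split_ifs <;> simp [hi]
    · rw [Function.update_of_ne h1]
      by_cases h2 : j' = o
      · subst h2
        unfold Sx
        split_ifs with h3
        · simp only [mem_insert, mem_singleton, or_true, iff_true]
          exact (mem_inS _ w d).mpr hoinc
        · simp [h1]
      · have h3 : (Sum.inr (w, d) : St k) ∉ Sx x j' := by
          unfold Sx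
          split_ifs
          · intro h4
            exact hother j' h1 h2 ((mem_inS _ w d).mp h4)
          · simp
        constructor
        · intro h4
          exact absurd h4 h3
        · intro h4
          split_ifs at h4
          · rw [mem_insert, mem_singleton] at h4
            rcases h4 with h4 | h4
            · exact absurd h4 h1
            · exact absurd h4 h2
          · rw [mem_singleton] at h4
            exact absurd h4 h1
  rw [h]
  split_ifs
  · rw [card_pair hjo]
  · rw [card_singleton]

/-- total value of the edges at `j` -/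
noncomputable def tot (x : ℕ → Bool) (j : Nd k) : ℝ := ∑ i ∈ inS j, val x j.1 i

theorem payoff_own (x : ℕ → Bool) (j : Nd k) :
    (net k).payoff (Function.update (Sx x) j {Sum.inl j}) j = thr j.1 := by
  unfold Game.payoff
  rw [Function.update_self, sum_singleton, load_own x j _ (mem_singleton_self _)]
  simp [net]

theorem payoff_sub (x : ℕ → Bool) (j : Nd k) (r : Finset (St k)) (hr : r ⊆ inS j) :
    (net k).payoff (Function.update (Sx x) j r) j = ∑ i ∈ r, val x j.1 i := by
  unfold Game.payoff
  rw [Function.update_self]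
  apply Finset.sum_congr rfl
  rintro (v | ⟨w, d⟩) hi
  · exact absurd (hr hi) (inl_notMem_inS j v)
  · rw [load_edge x j r w d hi ((mem_inS j w d).mp (hr hi))]
    simp only [val, net]
    push_cast
    rfl

theorem payoff_le (x : ℕ → Bool) (j : Nd k) (r : Finset (St k)) (hr : (net k).Feasible j r) :
    (net k).payoff (Function.update (Sx x) j r) j ≤ max (thr j.1) (tot x j) := by
  rcases feas_cases j r hr with h | h
  · subst h
    rw [payoff_own]
    exact le_max_left _ _
  · rw [payoff_sub x j r h]
    refine le_trans ?_ (le_max_right _ _)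
    exact Finset.sum_le_sum_of_subset_of_nonneg h (fun i _ _ => (val_pos x j.1 i).le)

theorem Sx_update (x : ℕ → Bool) (j : Nd k) (b : Bool) :
    Sx (Function.update x j.1 b) = Function.update (Sx x) j (if b then inS j else {Sum.inl j}) := by
  funext j'
  by_cases h : j' = j
  · subst h
    rw [Function.update_self]
    unfold Sx
    rw [Function.update_self]
  · rw [Function.update_of_ne h]
    unfold Sx
    rw [Function.update_of_ne (fun h' => h (Fin.ext h'))]

theorem move_up (x : ℕ → Bool) (j : Nd k) (hx : x j.1 = false) (h : thr j.1 < tot x j) :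
    (net k).Move (Sx x) (Sx (Function.update x j.1 true)) := by
  refine ⟨j, inS j, feas_inS j, by rw [Sx_update]; rfl, ?_, ?_⟩
  · intro r hr
    refine (payoff_le x j r hr).trans ?_
    rw [Sx_update, if_pos rfl, payoff_sub x j _ (Subset.refl _), max_eq_right h.le]
    exact le_refl _
  · have h1 : (net k).payoff (Sx x) j = thr j.1 := by
      rw [← payoff_own x j]
      congr 1
      rw [← Function.update_eq_self j (Sx x)]
      congr 1
      rw [Function.update_eq_self]
      unfold Sx
      rw [hx]
      simp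
    rw [h1, Sx_update, if_pos rfl, payoff_sub x j _ (Subset.refl _)]
    exact h

theorem move_down (x : ℕ → Bool) (j : Nd k) (hx : x j.1 = true) (h : tot x j < thr j.1) :
    (net k).Move (Sx x) (Sx (Function.update x j.1 false)) := by
  refine ⟨j, {Sum.inl j}, feas_own j, by rw [Sx_update]; simp, ?_, ?_⟩
  · intro r hr
    refine (payoff_le x j r hr).trans ?_
    rw [Sx_update]
    simp only [Bool.false_eq_true, if_false]
    rw [payoff_own, max_eq_left h.le]
  · have h1 : (net k).payoff (Sx x) j = tot x j := by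
      have h2 : Sx x = Function.update (Sx x) j (inS j) := by
        conv_lhs => rw [← Function.update_eq_self j (Sx x)]
        congr 1
        unfold Sx
        rw [hx]
        simp
      rw [h2, payoff_sub x j _ (Subset.refl _)]
      rfl
    rw [h1, Sx_update]
    simp only [Bool.false_eq_true, if_false]
    rw [payoff_own]
    exact h

theorem sc_anti {a b : ℕ} (h : a ≤ b) : sc b ≤ sc a := by
  unfold sc
  exact pow_le_pow_of_le_one (by norm_num) (by norm_num) h

/-- incoming part of the total -/
noncomputable def inPart (x : ℕ → Bool) (v : ℕ) : ℝ :=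
  ∑ d : Fin 3, if ex v d.1 then
    cw v d.1 * sc v / (1 + (if x (v - (d.1 + 1)) then 1 else 0)) else 0

theorem tot_bounds (x : ℕ → Bool) (j : Nd k) :
    inPart x j.1 ≤ tot x j ∧ tot x j ≤ inPart x j.1 + sc j.1 * (9 / 1000) := by
  have h1 : tot x j = inPart x j.1 + ∑ i ∈ inB j, val x j.1 i := by
    unfold tot inS
    rw [Finset.sum_union (disj j)]
    congr 1
    unfold inA inPart
    rw [Finset.sum_image, Finset.sum_filter]
    · apply Finset.sum_congr rfl
      intro d _
      by_cases hx : ex j.1 d.1
      · rw [if_pos hx, if_pos hx]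
        simp only [val, oth, if_true]
      · rw [if_neg hx, if_neg hx]
    · intro d _ d' _ h
      exact (Prod.mk.inj (Sum.inr.inj h)).2
  have h2 : 0 ≤ ∑ i ∈ inB j, val x j.1 i := Finset.sum_nonneg (fun i _ => (val_pos x j.1 i).le)
  have h3 : ∑ i ∈ inB j, val x j.1 i ≤ sc j.1 * (9 / 1000) := by
    have h4 : ∀ i ∈ inB j, val x j.1 i ≤ 3 * sc (j.1 + 1) := by
      rintro (v | ⟨w, d⟩) hi
      · exact absurd (mem_union_right _ hi) (inl_notMem_inS j v)
      · have h5 := ((mem_inB j w d).mp hi).2
        have h6 : sc w.1 ≤ sc (j.1 + 1) := sc_anti (by omega)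
        have h7 := cw_pos w.1 d.1
        have h8 := cw_le w.1 d.1
        have h9 := sc_pos w.1
        have h10 : val x j.1 (Sum.inr (w, d)) ≤ cw w.1 d.1 * sc w.1 := by
          unfold val
          simp only
          apply div_le_self (mul_pos h7 h9).le
          split_ifs <;> norm_num
        refine h10.trans ?_
        exact mul_le_mul h8 h6 h9.le (by norm_num)
    have h5 := Finset.sum_le_card_nsmul _ _ _ h4
    rw [nsmul_eq_mul] at h5
    have h6 : ((inB j).card : ℝ) ≤ 3 := by exact_mod_cast card_inB j
    have h7 := sc_pos (j.1 + 1)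
    have h8 : ((inB j).card : ℝ) * (3 * sc (j.1 + 1)) ≤ 3 * (3 * sc (j.1 + 1)) :=
      mul_le_mul_of_nonneg_right h6 (by positivity)
    rw [sc_succ] at h5 h8
    linarith
  rw [h1]
  constructor <;> linarith

/-- reachability in exactly `L` best-response moves, on the level of 0/1 vectors -/
def Step (k : ℕ) (x y : ℕ → Bool) : Prop := (net k).Move (Sx x) (Sx y)

theorem step_up {x : ℕ → Bool} {v : ℕ} (hv : v < 3 * k + 1) (hx : x v = false)
    (h : thr v < inPart x v) : Step k x (Function.update x v true) :=
  move_up x ⟨v, hv⟩ hx (lt_of_lt_of_le h (tot_bounds x ⟨v, hv⟩).1)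

theorem step_down {x : ℕ → Bool} {v : ℕ} (hv : v < 3 * k + 1) (hx : x v = true)
    (h : inPart x v + sc v * (9 / 1000) < thr v) : Step k x (Function.update x v false) :=
  move_down x ⟨v, hv⟩ hx (lt_of_le_of_lt (tot_bounds x ⟨v, hv⟩).2 h)

/-- `P`-node -/
theorem inPart_P (x : ℕ → Bool) (i : ℕ) :
    inPart x (3 * i + 1) = sc (3 * i + 1) / (1 + (if x (3 * i) then 1 else 0)) := by
  unfold inPart
  rw [Fin.sum_univ_three]
  have h0 : ex (3 * i + 1) 0 := by unfold ex; omega
  have h1 : ¬ ex (3 * i + 1) 1 := by unfold ex; omega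
  have h2 : ¬ ex (3 * i + 1) 2 := by unfold ex; omega
  have hc : cw (3 * i + 1) 0 = 1 := by
    unfold cw; rw [if_neg (by omega)]
  have e0 : ((0 : Fin 3) : ℕ) = 0 := rfl
  have e1 : ((1 : Fin 3) : ℕ) = 1 := rfl
  have e2 : ((2 : Fin 3) : ℕ) = 2 := rfl
  rw [e0, e1, e2, if_pos h0, if_neg h1, if_neg h2, hc]
  simp

theorem inPart_E (x : ℕ → Bool) (i : ℕ) :
    inPart x (3 * i + 2) = sc (3 * i + 2) / (1 + (if x (3 * i + 1) then 1 else 0)) +
      sc (3 * i + 2) / (1 + (if x (3 * i) then 1 else 0)) := by
  unfold inPart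
  rw [Fin.sum_univ_three]
  have h0 : ex (3 * i + 2) 0 := by unfold ex; omega
  have h1 : ex (3 * i + 2) 1 := by unfold ex; omega
  have h2 : ¬ ex (3 * i + 2) 2 := by unfold ex; omega
  have hc : ∀ d, cw (3 * i + 2) d = 1 := by
    intro d; unfold cw; rw [if_neg (by omega)]
  have e0 : ((0 : Fin 3) : ℕ) = 0 := rfl
  have e1 : ((1 : Fin 3) : ℕ) = 1 := rfl
  have e2 : ((2 : Fin 3) : ℕ) = 2 := rfl
  have f0 : 3 * i + 2 - (0 + 1) = 3 * i + 1 := by omega
  have f1 : 3 * i + 2 - (1 + 1) = 3 * i := by omega
  rw [e0, e1, e2, if_pos h0, if_pos h1, if_neg h2, hc, hc, f0, f1]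
  simp

theorem inPart_B (x : ℕ → Bool) (i : ℕ) :
    inPart x (3 * i + 3) = 3 * sc (3 * i + 3) / (1 + (if x (3 * i + 2) then 1 else 0)) +
      2 * sc (3 * i + 3) / (1 + (if x (3 * i + 1) then 1 else 0)) +
      2 * sc (3 * i + 3) / (1 + (if x (3 * i) then 1 else 0)) := by
  unfold inPart
  rw [Fin.sum_univ_three]
  have h0 : ex (3 * i + 3) 0 := by unfold ex; omega
  have h1 : ex (3 * i + 3) 1 := by unfold ex; omega
  have h2 : ex (3 * i + 3) 2 := by unfold ex; omega
  have hc0 : cw (3 * i + 3) 0 = 3 := by
    unfold cw; rw [if_pos (by omega), if_pos rfl]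
  have hc1 : cw (3 * i + 3) 1 = 2 := by
    unfold cw; rw [if_pos (by omega), if_neg (by norm_num)]
  have hc2 : cw (3 * i + 3) 2 = 2 := by
    unfold cw; rw [if_pos (by omega), if_neg (by norm_num)]
  have e0 : ((0 : Fin 3) : ℕ) = 0 := rfl
  have e1 : ((1 : Fin 3) : ℕ) = 1 := rfl
  have e2 : ((2 : Fin 3) : ℕ) = 2 := rfl
  have f0 : 3 * i + 3 - (0 + 1) = 3 * i + 2 := by omega
  have f1 : 3 * i + 3 - (1 + 1) = 3 * i + 1 := by omega
  have f2 : 3 * i + 3 - (2 + 1) = 3 * i := by omega
  rw [e0, e1, e2, if_pos h0, if_pos h1, if_pos h2, hc0, hc1, hc2, f0, f1, f2]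

theorem thr_P (i : ℕ) : thr (3 * i + 1) = 3 / 4 * sc (3 * i + 1) := by
  unfold thr; rw [if_neg (by omega), if_pos (by omega)]

theorem thr_E (i : ℕ) : thr (3 * i + 2) = 5 / 4 * sc (3 * i + 2) := by
  unfold thr; rw [if_neg (by omega), if_neg (by omega), if_pos (by omega)]

theorem thr_B (i : ℕ) : thr (3 * i + 3) = 24 / 5 * sc (3 * i + 3) := by
  unfold thr; rw [if_neg (by omega), if_neg (by omega), if_neg (by omega)]

variable {i : ℕ} {x : ℕ → Bool}

theorem P_up (hi : i < k) (h : x (3 * i + 1) = false) (h0 : x (3 * i) = false) :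
    Step k x (Function.update x (3 * i + 1) true) := by
  apply step_up (by omega) h
  rw [thr_P, inPart_P, h0]
  have := sc_pos (3 * i + 1)
  simp only [Bool.false_eq_true, if_false]
  linarith

theorem P_down (hi : i < k) (h : x (3 * i + 1) = true) (h0 : x (3 * i) = true) :
    Step k x (Function.update x (3 * i + 1) false) := by
  apply step_down (by omega) h
  rw [thr_P, inPart_P, h0]
  have := sc_pos (3 * i + 1)
  simp only [if_true]
  linarith

theorem E_up (hi : i < k) (h : x (3 * i + 2) = false)
    (h0 : x (3 * i) = true) (h1 : x (3 * i + 1) = false) :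
    Step k x (Function.update x (3 * i + 2) true) := by
  apply step_up (by omega) h
  rw [thr_E, inPart_E, h0, h1]
  have := sc_pos (3 * i + 2)
  simp only [if_true, Bool.false_eq_true, if_false]
  linarith

theorem E_down (hi : i < k) (h : x (3 * i + 2) = true)
    (h0 : x (3 * i) = true) (h1 : x (3 * i + 1) = true) :
    Step k x (Function.update x (3 * i + 2) false) := by
  apply step_down (by omega) h
  rw [thr_E, inPart_E, h0, h1]
  have := sc_pos (3 * i + 2)
  simp only [if_true]
  linarith

theorem B_up1 (hi : i < k) (h : x (3 * i + 3) = false)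
    (h0 : x (3 * i) = true) (h1 : x (3 * i + 1) = true) (h2 : x (3 * i + 2) = false) :
    Step k x (Function.update x (3 * i + 3) true) := by
  apply step_up (by omega) h
  rw [thr_B, inPart_B, h0, h1, h2]
  have := sc_pos (3 * i + 3)
  simp only [if_true, Bool.false_eq_true, if_false]
  linarith

theorem B_up2 (hi : i < k) (h : x (3 * i + 3) = false)
    (h0 : x (3 * i) = false) (h1 : x (3 * i + 1) = false) (h2 : x (3 * i + 2) = true) :
    Step k x (Function.update x (3 * i + 3) true) := by
  apply step_up (by omega) h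
  rw [thr_B, inPart_B, h0, h1, h2]
  have := sc_pos (3 * i + 3)
  simp only [if_true, Bool.false_eq_true, if_false]
  linarith

theorem B_down (hi : i < k) (h : x (3 * i + 3) = true)
    (h0 : x (3 * i + 1) = !x (3 * i)) (h2 : x (3 * i + 2) = true) :
    Step k x (Function.update x (3 * i + 3) false) := by
  apply step_down (by omega) h
  rw [thr_B, inPart_B, h0, h2]
  have := sc_pos (3 * i + 3)
  cases x (3 * i) <;> simp only [if_true, Bool.not_true, Bool.not_false, Bool.false_eq_true,
    if_false] <;> linarith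

theorem root_up (hk : 0 < k) (h : x 0 = false) : Step k x (Function.update x 0 true) := by
  have h0 : (0 : ℕ) < 3 * k + 1 := by omega
  apply move_up x ⟨0, h0⟩ h
  have h1 : (Sum.inr (⟨1, by omega⟩, 0) : St k) ∈ inS (⟨0, h0⟩ : Nd k) := by
    rw [mem_inS]
    refine ⟨?_, Or.inr rfl⟩
    unfold ex
    simp
  have h2 := Finset.single_le_sum (f := fun i => val x 0 i)
    (fun i _ => (val_pos x 0 i).le) h1
  have h3 : val x 0 (Sum.inr (⟨1, by omega⟩, 0) : St k) ≥ sc 1 / 2 := by
    unfold val
    have hc : cw 1 0 = 1 := by unfold cw; simp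
    have := sc_pos 1
    simp only [Fin.isValue, Fin.coe_ofNat_eq_mod, Nat.zero_mod]
    rw [hc]
    split_ifs <;> linarith
  have h4 : thr 0 = sc 1 / 4 := by unfold thr; simp
  have h5 := sc_pos 1
  show thr 0 < tot x ⟨0, h0⟩
  unfold tot
  linarith

/-- walks made of best-response moves -/
inductive Walk (k : ℕ) : ℕ → (ℕ → Bool) → (ℕ → Bool) → Prop
  | nil (x : ℕ → Bool) : Walk k 0 x x
  | cons {x y z : ℕ → Bool} {L : ℕ} : Step k x y → Walk k L y z → Walk k (L + 1) x z

theorem Walk.append {x y z : ℕ → Bool} {L1 L2 : ℕ} (h1 : Walk k L1 x y) (h2 : Walk k L2 y z) :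
    Walk k (L1 + L2) x z := by
  induction h1 with
  | nil x => rw [Nat.zero_add]; exact h2
  | cons hs _ ih =>
    rw [Nat.add_right_comm]
    exact Walk.cons hs (ih h2)

theorem Walk.toFun {x z : ℕ → Bool} {L : ℕ} (h : Walk k L x z) :
    ∃ S : ℕ → ℕ → Bool, S 0 = x ∧ ∀ t, t < L → Step k (S t) (S (t + 1)) := by
  induction h with
  | nil x => exact ⟨fun _ => x, rfl, fun t ht => absurd ht (Nat.not_lt_zero t)⟩
  | @cons x y z L hs _ ih =>
    obtain ⟨S, h0, hS⟩ := ih
    refine ⟨fun t => match t with | 0 => x | t + 1 => S t, rfl, ?_⟩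
    intro t ht
    rcases t with _ | t
    · simp only
      rw [h0]
      exact hs
    · exact hS t (by omega)

theorem Walk.hasPath {x z : ℕ → Bool} {L : ℕ} (h : Walk k L x z) : (net k).HasPath L := by
  obtain ⟨S, _, hS⟩ := h.toFun
  exact ⟨fun t => Sx (S t), fun t _ j => feas_Sx (S t) j, hS⟩

/-- stages `≥ i` are at rest -/
def Rest (k i : ℕ) (x : ℕ → Bool) : Prop :=
  ∀ j, i ≤ j → j < k →
    x (3 * j + 1) = !x (3 * j) ∧ x (3 * j + 2) = true ∧ x (3 * j + 3) = false

theorem Rest.congr {i : ℕ} {x y : ℕ → Bool} (h : Rest k i x)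
    (hxy : ∀ v, 3 * i ≤ v → y v = x v) : Rest k i y := by
  intro j h1 h2
  obtain ⟨h3, h4, h5⟩ := h j h1 h2
  rw [hxy (3 * j + 1) (by omega), hxy (3 * j) (by omega), hxy (3 * j + 2) (by omega),
    hxy (3 * j + 3) (by omega)]
  exact ⟨h3, h4, h5⟩

theorem upd_ne {x : ℕ → Bool} {a v : ℕ} {b : Bool} (h : v ≠ a) :
    Function.update x a b v = x v := Function.update_of_ne h b x

theorem upd_eq {x : ℕ → Bool} {a : ℕ} {b : Bool} :
    Function.update x a b a = b := Function.update_self a b x

theorem cascade (m : ℕ) : ∀ i, i + m = k → ∀ x, Rest k i x →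
    ∃ (y : ℕ → Bool) (L : ℕ), Walk k L (Function.update x (3 * i) (!x (3 * i))) y ∧
      2 ^ m ≤ L + 1 ∧ Rest k i y ∧ y (3 * i) = !x (3 * i) ∧ ∀ v, v < 3 * i → y v = x v := by
  induction m with
  | zero =>
    intro i hi x _
    refine ⟨_, 0, Walk.nil _, by simp, ?_, upd_eq, ?_⟩
    · intro j h1 h2
      omega
    · intro v hv
      exact upd_ne (by omega)
  | succ m ih =>
    intro i hi x hx
    have hik : i < k := by omega
    have ih' := ih (i + 1) (by omega)
    have e3 : 3 * (i + 1) = 3 * i + 3 := by ring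
    rw [e3] at ih'
    obtain ⟨hp, he, hb⟩ := hx i (le_refl _) hik
    have hrest : Rest k (i + 1) x := fun j h1 h2 => hx j (by omega) h2
    cases hxi : x (3 * i) with
    | false =>
      rw [hxi] at hp
      simp only [Bool.not_false] at hp ⊢
      -- x0, x1
      have s1 : Step k (Function.update x (3 * i) true)
          (Function.update (Function.update x (3 * i) true) (3 * i + 2) false) :=
        E_down hik (by rw [upd_ne (by omega)]; exact he) upd_eq
          (by rw [upd_ne (by omega)]; exact hp)
      obtain ⟨x1, hx1⟩ : ∃ x1, x1 =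
        Function.update (Function.update x (3 * i) true) (3 * i + 2) false := ⟨_, rfl⟩
      rw [← hx1] at s1
      have a0 : x1 (3 * i) = true := by rw [hx1, upd_ne (by omega), upd_eq]
      have a1 : x1 (3 * i + 1) = true := by
        rw [hx1, upd_ne (by omega), upd_ne (by omega)]; exact hp
      have a2 : x1 (3 * i + 2) = false := by rw [hx1, upd_eq]
      have a3 : x1 (3 * i + 3) = false := by
        rw [hx1, upd_ne (by omega), upd_ne (by omega)]; exact hb
      have alow : ∀ v, v < 3 * i → x1 v = x v := by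
        intro v hv
        rw [hx1, upd_ne (by omega), upd_ne (by omega)]
      have s2 := B_up1 hik a3 a0 a1 a2
      have r1 : Rest k (i + 1) x1 := hrest.congr (by
        intro v hv
        rw [hx1, upd_ne (by omega), upd_ne (by omega)])
      obtain ⟨y1, L1, w1, c1, q1, b3, blow⟩ := ih' x1 r1
      rw [a3] at w1 b3
      simp only [Bool.not_false] at w1 b3
      have b0 : y1 (3 * i) = true := by rw [blow _ (by omega)]; exact a0
      have b1 : y1 (3 * i + 1) = true := by rw [blow _ (by omega)]; exact a1
      have b2 : y1 (3 * i + 2) = false := by rw [blow _ (by omega)]; exact a2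
      have s3 := P_down hik b1 b0
      obtain ⟨x3, hx3⟩ : ∃ x3, x3 = Function.update y1 (3 * i + 1) false := ⟨_, rfl⟩
      rw [← hx3] at s3
      have s4 : Step k x3 (Function.update x3 (3 * i + 2) true) :=
        E_up hik (by rw [hx3, upd_ne (by omega)]; exact b2)
          (by rw [hx3, upd_ne (by omega)]; exact b0) (by rw [hx3, upd_eq])
      obtain ⟨x4, hx4⟩ : ∃ x4, x4 = Function.update x3 (3 * i + 2) true := ⟨_, rfl⟩
      rw [← hx4] at s4
      have d0 : x4 (3 * i) = true := by
        rw [hx4, upd_ne (by omega), hx3, upd_ne (by omega)]; exact b0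
      have d1 : x4 (3 * i + 1) = false := by
        rw [hx4, upd_ne (by omega), hx3, upd_eq]
      have d2 : x4 (3 * i + 2) = true := by rw [hx4, upd_eq]
      have d3 : x4 (3 * i + 3) = true := by
        rw [hx4, upd_ne (by omega), hx3, upd_ne (by omega)]; exact b3
      have dlow : ∀ v, v < 3 * i → x4 v = x v := by
        intro v hv
        rw [hx4, upd_ne (by omega), hx3, upd_ne (by omega), blow v (by omega), alow v hv]
      have s5 := B_down hik d3 (by rw [d0, d1]; rfl) d2
      have r4 : Rest k (i + 1) x4 := q1.congr (by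
        intro v hv
        rw [hx4, upd_ne (by omega), hx3, upd_ne (by omega)])
      obtain ⟨y2, L2, w2, c2, q2, f3, flow⟩ := ih' x4 r4
      rw [d3] at w2 f3
      simp only [Bool.not_true] at w2 f3
      refine ⟨y2, _, Walk.cons s1 (Walk.cons s2 (w1.append
        (Walk.cons s3 (Walk.cons s4 (Walk.cons s5 w2))))), ?_, ?_, ?_, ?_⟩
      · rw [pow_succ]; omega
      · intro j h1 h2
        rcases Nat.eq_or_lt_of_le h1 with h3 | h3
        · subst h3
          rw [flow _ (by omega), flow _ (by omega), flow _ (by omega), d0, d1, d2]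
          exact ⟨rfl, rfl, f3⟩
        · exact q2 j h3 h2
      · rw [flow _ (by omega)]; exact d0
      · intro v hv
        rw [flow v (by omega)]; exact dlow v hv
    | true =>
      rw [hxi] at hp
      simp only [Bool.not_true] at hp ⊢
      obtain ⟨x0, hx0⟩ : ∃ x0, x0 = Function.update x (3 * i) false := ⟨_, rfl⟩
      rw [← hx0]
      have a0 : x0 (3 * i) = false := by rw [hx0, upd_eq]
      have a1 : x0 (3 * i + 1) = false := by rw [hx0, upd_ne (by omega)]; exact hp
      have a2 : x0 (3 * i + 2) = true := by rw [hx0, upd_ne (by omega)]; exact he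
      have a3 : x0 (3 * i + 3) = false := by rw [hx0, upd_ne (by omega)]; exact hb
      have s1 := B_up2 hik a3 a0 a1 a2
      have r0 : Rest k (i + 1) x0 := hrest.congr (by
        intro v hv
        rw [hx0, upd_ne (by omega)])
      obtain ⟨y1, L1, w1, c1, q1, b3, blow⟩ := ih' x0 r0
      rw [a3] at w1 b3
      simp only [Bool.not_false] at w1 b3
      have b0 : y1 (3 * i) = false := by rw [blow _ (by omega)]; exact a0
      have b1 : y1 (3 * i + 1) = false := by rw [blow _ (by omega)]; exact a1
      have b2 : y1 (3 * i + 2) = true := by rw [blow _ (by omega)]; exact a2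
      have s2 := P_up hik b1 b0
      obtain ⟨x2, hx2⟩ : ∃ x2, x2 = Function.update y1 (3 * i + 1) true := ⟨_, rfl⟩
      rw [← hx2] at s2
      have d0 : x2 (3 * i) = false := by rw [hx2, upd_ne (by omega)]; exact b0
      have d1 : x2 (3 * i + 1) = true := by rw [hx2, upd_eq]
      have d2 : x2 (3 * i + 2) = true := by rw [hx2, upd_ne (by omega)]; exact b2
      have d3 : x2 (3 * i + 3) = true := by rw [hx2, upd_ne (by omega)]; exact b3
      have s3 := B_down hik d3 (by rw [d0, d1]; rfl) d2
      have r2 : Rest k (i + 1) x2 := q1.congr (by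
        intro v hv
        rw [hx2, upd_ne (by omega)])
      obtain ⟨y2, L2, w2, c2, q2, f3, flow⟩ := ih' x2 r2
      rw [d3] at w2 f3
      simp only [Bool.not_true] at w2 f3
      refine ⟨y2, _, Walk.cons s1 (w1.append (Walk.cons s2 (Walk.cons s3 w2))), ?_, ?_, ?_, ?_⟩
      · rw [pow_succ]; omega
      · intro j h1 h2
        rcases Nat.eq_or_lt_of_le h1 with h3 | h3
        · subst h3
          rw [flow _ (by omega), flow _ (by omega), flow _ (by omega), d0, d1, d2]
          exact ⟨rfl, rfl, f3⟩
        · exact q2 j h3 h2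
      · rw [flow _ (by omega)]; exact d0
      · intro v hv
        rw [flow v (by omega), hx2, upd_ne (by omega), blow v (by omega), hx0,
          upd_ne (by omega)]

/-- the starting vector -/
def start (v : ℕ) : Bool := decide (v % 3 ≠ 0)

theorem start_rest : Rest k 0 start := by
  intro j _ _
  unfold start
  have h1 : (3 * j + 1) % 3 = 1 := by omega
  have h2 : (3 * j + 2) % 3 = 2 := by omega
  have h3 : (3 * j + 3) % 3 = 0 := by omega
  have h4 : (3 * j) % 3 = 0 := by omega
  rw [h1, h2, h3, h4]
  decide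

theorem long_path (hk : 0 < k) : ∃ L, 2 ^ k ≤ L ∧ (net k).HasPath L := by
  obtain ⟨y, L, w, c, -⟩ := cascade (k := k) k 0 (Nat.zero_add k) start start_rest
  have h0 : start 0 = false := by decide
  have s := root_up hk h0
  have w' : Walk k (L + 1) start y := by
    refine Walk.cons s ?_
    have e : Function.update start (3 * 0) (!start (3 * 0)) = Function.update start 0 true := by
      rw [Nat.mul_zero, h0]; rfl
    rw [← e]
    exact w
  exact ⟨L + 1, c, w'.hasPath⟩

end network

/-- **Theorem.** There are a constant `c > 0` and instances of the budgeted sharing game with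
`n + m` arbitrarily large, each admitting a best-response path of length at least
`2 ^ (c (n + m))`. -/
theorem result : ∃ c : ℝ, 0 < c ∧ ∀ N : ℕ,
    ∃ (U H : Type) (_ : Fintype U) (_ : Fintype H) (_ : DecidableEq U) (_ : DecidableEq H)
      (G : Game U H), N ≤ Fintype.card U + Fintype.card H ∧
      ∃ L : ℕ, G.HasPath L ∧
        (2 : ℝ) ^ (c * ((Fintype.card U : ℝ) + (Fintype.card H : ℝ))) ≤ L := by
  refine ⟨1 / 20, by norm_num, fun N => ?_⟩
  set k := N + 1 with hk
  have hU : Fintype.card (Nd k) = 3 * k + 1 := by simp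
  have hH : Fintype.card (St k) = (3 * k + 1) + (3 * k + 1) * 3 := by simp
  refine ⟨Nd k, St k, inferInstance, inferInstance, inferInstance, inferInstance, net k, ?_, ?_⟩
  · rw [hU, hH]; omega
  · obtain ⟨L, hL, hpath⟩ := long_path (k := k) (by omega)
    refine ⟨L, hpath, ?_⟩
    rw [hU, hH]
    have h1 : (2 : ℝ) ^ k ≤ L := by exact_mod_cast hL
    refine le_trans ?_ h1
    rw [← Real.rpow_natCast]
    apply Real.rpow_le_rpow_of_exponent_le (by norm_num)
    push_cast
    have hk1 : (1 : ℝ) ≤ (k : ℝ) := by exact_mod_cast (by omega : 1 ≤ k)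
    nlinarith

end Pool.Agent.Results.MP_2a1065_lc.ExponentialPath
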